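import Pool.Agent.GLE.StmtsA

/-! Squad GLE, row IDX: lower bound of an integer determinant by successive divisibility. -/

namespace Pool.Agent.GLE.H27

open Finset

theorem idx : IdxStmt := by
  intro n A d hdet hd hdiv
  have hinj : Function.Injective A.mulVec := Matrix.mulVec_injective_of_det_ne_zero hdet
  let f : (Fin n → ℤ) →ₗ[ℤ] (Fin n → ℤ) := A.mulVecLin
  have hf : Function.Injective f := hinj
  let e : (Fin n → ℤ) ≃ₗ[ℤ] LinearMap.range f := LinearEquiv.ofInjective f hf
  have hcard := Submodule.natAbs_det_equiv (LinearMap.range f) e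
  have h1 : (LinearMap.range f).subtype ∘ₗ AddMonoidHom.toIntLinearMap
      ((e : (Fin n → ℤ) ≃ₗ[ℤ] LinearMap.range f) : (Fin n → ℤ) →+ LinearMap.range f) = f := by
    ext x
    rfl
  have h2 : LinearMap.det f = A.det := by
    change LinearMap.det A.mulVecLin = A.det
    rw [← Matrix.toLin'_apply', LinearMap.det_toLin']
  have h3 : A.det.natAbs = Nat.card ((Fin n → ℤ) ⧸ LinearMap.range f) := by
    rw [← hcard, ← h2]
    exact congrArg (fun g => (LinearMap.det g).natAbs) h1.symm
  have hfin : Finite ((Fin n → ℤ) ⧸ LinearMap.range f) := by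
    apply Nat.finite_of_card_ne_zero
    rw [← h3]
    exact Int.natAbs_ne_zero.mpr hdet
  let φ : ((j : Fin n) → Fin (d j)) → (Fin n → ℤ) ⧸ LinearMap.range f :=
    fun v => Submodule.Quotient.mk (fun j => ((v j : ℕ) : ℤ))
  have hφ : Function.Injective φ := by
    intro v w hvw
    have h4 : (fun j => ((v j : ℕ) : ℤ)) - (fun j => ((w j : ℕ) : ℤ)) ∈ LinearMap.range f :=
      (Submodule.Quotient.eq _).mp hvw
    obtain ⟨δ, hδ⟩ := h4
    have h5 : ∀ j, A.mulVec δ j = ((v j : ℕ) : ℤ) - ((w j : ℕ) : ℤ) := fun j => congrFun hδ j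
    funext j
    have h6 : ∀ k : ℕ, ∀ j : Fin n, j.val = k → v j = w j := by
      intro k
      induction k using Nat.strong_induction_on with
      | _ k ih =>
        intro j hj
        have h7 : ∀ l < j, A.mulVec δ l = 0 := by
          intro l hl
          rw [h5, ih l.val (by rw [← hj]; exact hl) l rfl, sub_self]
        have h8 := hdiv δ j h7
        rw [h5] at h8
        have h9 : |((v j : ℕ) : ℤ) - ((w j : ℕ) : ℤ)| < (d j : ℤ) := by
          have h10 := (v j).isLt
          have h11 := (w j).isLt
          rw [abs_lt]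
          constructor <;> omega
        have h12 := Int.eq_zero_of_abs_lt_dvd h8 h9
        apply Fin.ext
        omega
    exact h6 j.val j rfl
  have h13 := Nat.card_le_card_of_injective φ hφ
  rw [Nat.card_pi, ← h3] at h13
  simp only [Nat.card_fin] at h13
  rw [← Nat.cast_prod, Int.abs_eq_natAbs]
  exact_mod_cast h13

end Pool.Agent.GLE.H27
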